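import Pool.Agent.N569.TC.Defs

set_option autoImplicit false

/-!
# TWA/TL (helper42): the path representation of the Temperley-Lieb algebra
-/

namespace Pool.Agent.N42.TC

open Pool.Agent.N569.TC Pool.Agent.H891R2.Jones Finset

variable {m N : ℕ}

/-- the steps `i`, `i + 1` are different -/
def Mx (i : ℕ) (s : Fin m → Fin 2) : Prop := Hh s i = Hh s (i+2)

lemma Vd_fl {i : ℕ} {s : Fin m → Fin 2} (hs : Vd s) (h : 0 ≤ Hh (fl i s) (i+1)) : Vd (fl i s) := by
  intro j
  by_cases hj : j = i + 1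
  · rw [hj]; exact h
  · rw [Hh_fl_ne s hj]; exact hs j

lemma De_of_not {i : ℕ} {s : Fin m → Fin 2} (hs : Vd s) (h : ¬ Vd (fl i s)) :
    De N (Hh (fl i s) (i+1)) = 0 := by
  apply De_neg
  by_contra hn
  exact h (Vd_fl hs (not_lt.1 hn))

lemma mid {i : ℕ} (hi : i + 1 < m) {s : Fin m → Fin 2} (h : Mx i s) :
    (Hh s (i+1) = Hh s (i+2) + 1 ∧ Hh (fl i s) (i+1) = Hh s (i+2) - 1) ∨
    (Hh s (i+1) = Hh s (i+2) - 1 ∧ Hh (fl i s) (i+1) = Hh s (i+2) + 1) := by
  have h1 := Hh_fl s hi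
  have h2 := Hh_step s hi
  rw [show i + 1 + 1 = i + 2 from rfl] at h2
  unfold Mx at h
  rcases h2 with h2 | h2
  · left; refine ⟨h2, ?_⟩; rw [h1, h, h2]; ring
  · right; refine ⟨h2, ?_⟩; rw [h1, h, h2]; ring

lemma fl_ne {i : ℕ} (hi : i + 1 < m) {s : Fin m → Fin 2} (h : Mx i s) : fl i s ≠ s := by
  intro h1
  have h2 := mid hi h
  rw [h1] at h2
  omega

lemma Mx_fl {i : ℕ} {s : Fin m → Fin 2} : Mx i (fl i s) ↔ Mx i s := by
  unfold Mx
  rw [Hh_fl_ne s (by omega), Hh_fl_ne s (by omega)]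

lemma JJ_of {i : ℕ} (hi : i + 1 < m) {t s : Fin m → Fin 2} (ht : Vd t) (hs : Vd s) (h : Mx i s)
    (hts : t = s ∨ t = fl i s) : JJ m N i t s = De N (Hh t (i+1)) / De N (Hh s (i+2)) := by
  unfold JJ
  rw [Matrix.of_apply, if_pos ⟨hi, ht, hs, h, hts⟩]

lemma JJ_not {i : ℕ} {t s : Fin m → Fin 2} (h : ¬ (Vd t ∧ Vd s ∧ Mx i s ∧ (t = s ∨ t = fl i s))) :
    JJ m N i t s = 0 := by
  unfold JJ
  rw [Matrix.of_apply, if_neg (fun h' => h ⟨h'.2.1, h'.2.2.1, h'.2.2.2.1, h'.2.2.2.2⟩)]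

lemma JJ_fl {i : ℕ} {t s : Fin m → Fin 2} (hs : Vd s) (hs' : Vd (fl i s)) :
    JJ m N i t (fl i s) = JJ m N i t s := by
  unfold JJ
  simp only [Matrix.of_apply]
  have e1 : Hh (fl i s) i = Hh s i := Hh_fl_ne s (by omega)
  have e2 : Hh (fl i s) (i+2) = Hh s (i+2) := Hh_fl_ne s (by omega)
  rw [e1, e2, fl_fl]
  congr 1
  apply propext
  constructor
  · rintro ⟨h1, h2, h3, h4, h5⟩
    exact ⟨h1, h2, hs, h4, h5.symm⟩
  · rintro ⟨h1, h2, h3, h4, h5⟩
    exact ⟨h1, h2, hs', h4, h5.symm⟩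

lemma mul_JJ (Y : Matrix (Fin m → Fin 2) (Fin m → Fin 2) ℂ) {i : ℕ} (hi : i + 1 < m)
    (t : Fin m → Fin 2) {s : Fin m → Fin 2} (hs : Vd s) (h : Mx i s) :
    (Y * JJ m N i) t s =
      (Y t s * De N (Hh s (i+1)) + Y t (fl i s) * De N (Hh (fl i s) (i+1))) / De N (Hh s (i+2)) := by
  rw [Matrix.mul_apply]
  have hne := fl_ne hi h
  rw [Finset.sum_eq_add_of_mem s (fl i s) (Finset.mem_univ _) (Finset.mem_univ _) (Ne.symm hne)]
  · rw [JJ_of hi hs hs h (Or.inl rfl), add_div, mul_div_assoc]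
    congr 1
    by_cases hv : Vd (fl i s)
    · rw [JJ_of hi hv hs h (Or.inr rfl), mul_div_assoc]
    · rw [JJ_not (fun h' => hv h'.1), De_of_not hs hv]
      ring
  · rintro r _ ⟨h1, h2⟩
    rw [JJ_not (fun h' => (h'.2.2.2).elim h1 h2), mul_zero]

lemma mul_JJ_not (Y : Matrix (Fin m → Fin 2) (Fin m → Fin 2) ℂ) {i : ℕ}
    (t : Fin m → Fin 2) {s : Fin m → Fin 2} (h : ¬ (Vd s ∧ Mx i s)) :
    (Y * JJ m N i) t s = 0 := by
  rw [Matrix.mul_apply]
  apply Finset.sum_eq_zero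
  intro r _
  rw [JJ_not (fun h' => h ⟨h'.2.1, h'.2.2.1⟩), mul_zero]

/-- the value at the exchanged path in a product -/
lemma JJ_fl_mul {i : ℕ} {t s : Fin m → Fin 2} (hs : Vd s) :
    JJ m N i t (fl i s) * De N (Hh (fl i s) (i+1)) = JJ m N i t s * De N (Hh (fl i s) (i+1)) := by
  by_cases hv : Vd (fl i s)
  · rw [JJ_fl hs hv]
  · rw [De_of_not hs hv, mul_zero, mul_zero]

theorem JJ_sq (hN : 3 ≤ N) {i : ℕ} (hi : i + 1 < m) : JJ m N i * JJ m N i = (N : ℂ) • JJ m N i := by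
  ext t s
  rw [Matrix.smul_apply, smul_eq_mul]
  by_cases h : Vd s ∧ Mx i s
  · obtain ⟨hs, h⟩ := h
    rw [mul_JJ _ hi t hs h, JJ_fl_mul hs, ← mul_add]
    have h0 : 0 ≤ Hh s (i+2) := hs _
    have hne := De_ne hN h0
    have hrec := De_rec N h0
    have e : De N (Hh s (i+1)) + De N (Hh (fl i s) (i+1)) = N * De N (Hh s (i+2)) := by
      rcases mid hi h with ⟨h1, h2⟩ | ⟨h1, h2⟩
      · rw [h1, h2, hrec]
      · rw [h1, h2, add_comm, hrec]
    rw [e]
    field_simp
  · rw [mul_JJ_not _ t h, JJ_not (fun h' => h ⟨h'.2.1, h'.2.2.1⟩), mul_zero]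

/-- the general form of the braid-type relations -/
theorem JJ_triple (hN : 3 ≤ N) {a b : ℕ} (ha : a + 1 < m) (hb : b + 1 < m)
    (H : ∀ s : Fin m → Fin 2, Vd s → Mx a s →
      (Mx b s ∧ ¬ Mx b (fl a s) ∧ ¬ Mx a (fl b s) ∧
        De N (Hh s (b+1)) * De N (Hh s (a+1)) = De N (Hh s (b+2)) * De N (Hh s (a+2))) ∨
      (¬ Mx b s ∧ Vd (fl a s) ∧ Mx b (fl a s) ∧ ¬ Mx a (fl b (fl a s)) ∧
        De N (Hh (fl a s) (b+1)) * De N (Hh (fl a s) (a+1)) =
          De N (Hh (fl a s) (b+2)) * De N (Hh s (a+2)))) :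
    JJ m N a * JJ m N b * JJ m N a = JJ m N a := by
  ext t s
  by_cases h : Vd s ∧ Mx a s
  · obtain ⟨hs, h⟩ := h
    rw [mul_JJ _ ha t hs h]
    have hne2 := De_ne hN (hs (a+2))
    rcases H s hs h with ⟨h1, h2, h3, h4⟩ | ⟨h1, h2, h3, h4, h5⟩
    · have hne1 := De_ne hN (hs (b+2))
      rw [mul_JJ _ hb t hs h1, mul_JJ_not _ t (fun h' => h2 h'.2), zero_mul, add_zero,
        JJ_not (fun h' => h3 h'.2.2.1), zero_mul, add_zero]
      field_simp
      rw [mul_assoc, h4]
      ring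
    · have hne1 := De_ne hN (h2 (b+2))
      rw [mul_JJ_not _ t (fun h' => h1 h'.2), zero_mul, zero_add, mul_JJ _ hb t h2 h3,
        JJ_not (s := fl b (fl a s)) (fun h' => h4 h'.2.2.1), zero_mul, add_zero, JJ_fl hs h2]
      field_simp
      rw [mul_assoc, h5]
      ring
  · rw [mul_JJ_not _ t h, JJ_not (fun h' => h ⟨h'.2.1, h'.2.2.1⟩)]

theorem JJ_up (hN : 3 ≤ N) {i : ℕ} (hi : i + 2 < m) :
    JJ m N i * JJ m N (i+1) * JJ m N i = JJ m N i := by
  apply JJ_triple hN (by omega) (by omega)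
  intro s hs h
  have hm := mid (by omega) h
  have hst := Hh_step s (i := i + 2) hi
  rw [show i + 2 + 1 = i + 3 from rfl] at hst
  have e3 : Hh (fl i s) (i+3) = Hh s (i+3) := Hh_fl_ne s (by omega)
  have e2 : Hh (fl i s) (i+2) = Hh s (i+2) := Hh_fl_ne s (by omega)
  have e0 : Hh (fl i s) i = Hh s i := Hh_fl_ne s (by omega)
  unfold Mx at h ⊢
  rw [show i + 1 + 2 = i + 3 from rfl, show i + 1 + 1 = i + 2 from rfl]
  by_cases hc : Hh s (i+1) = Hh s (i+3)
  · left
    refine ⟨hc, ?_, ?_, ?_⟩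
    · rw [e3]; omega
    · rw [Hh_fl_ne s (i := i + 1) (by omega : i ≠ i + 1 + 1)]
      have := Hh_fl s (i := i + 1) (by omega)
      rw [show i + 1 + 1 = i + 2 from rfl, show i + 1 + 2 = i + 3 from rfl] at this
      rw [this]
      omega
    · rw [hc]; ring
  · right
    have hc' : Hh (fl i s) (i+1) = Hh s (i+3) := by omega
    refine ⟨hc, Vd_fl hs (by rw [hc']; exact hs _), by rw [e3]; exact hc', ?_, ?_⟩
    · rw [Hh_fl_ne (fl i s) (i := i + 1) (by omega : i ≠ i + 1 + 1)]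
      have := Hh_fl (fl i s) (i := i + 1) (by omega)
      rw [show i + 1 + 1 = i + 2 from rfl, show i + 1 + 2 = i + 3 from rfl] at this
      rw [this, e0, e2, e3]
      omega
    · rw [e2, e3, hc']; ring

theorem JJ_down (hN : 3 ≤ N) {i : ℕ} (hi : i + 2 < m) :
    JJ m N (i+1) * JJ m N i * JJ m N (i+1) = JJ m N (i+1) := by
  apply JJ_triple hN (by omega) (by omega)
  intro s hs h
  have hm := mid (by omega) h
  rw [show i + 1 + 1 = i + 2 from rfl, show i + 1 + 2 = i + 3 from rfl] at hm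
  have hst := Hh_step s (i := i) (by omega)
  have e3 : Hh (fl (i+1) s) (i+3) = Hh s (i+3) := Hh_fl_ne s (by omega)
  have e1 : Hh (fl (i+1) s) (i+1) = Hh s (i+1) := Hh_fl_ne s (by omega)
  have e0 : Hh (fl (i+1) s) i = Hh s i := Hh_fl_ne s (by omega)
  unfold Mx at h ⊢
  rw [show i + 1 + 2 = i + 3 from rfl] at h ⊢
  rw [show i + 1 + 1 = i + 2 from rfl]
  by_cases hc : Hh s i = Hh s (i+2)
  · left
    refine ⟨hc, ?_, ?_, ?_⟩
    · rw [e0]; omega
    · rw [Hh_fl_ne s (i := i) (by omega : i + 3 ≠ i + 1), Hh_fl s (i := i) (by omega)]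
      omega
    · rw [h]; ring
  · right
    have hc' : Hh (fl (i+1) s) (i+2) = Hh s i := by omega
    refine ⟨hc, Vd_fl hs (by rw [show i + 1 + 1 = i + 2 from rfl, hc']; exact hs _),
      by rw [e0]; exact hc'.symm, ?_, ?_⟩
    · rw [Hh_fl_ne (fl (i+1) s) (i := i) (by omega : i + 3 ≠ i + 1), Hh_fl (fl (i+1) s) (i := i) (by omega),
        e0, e1, e3]
      omega
    · rw [e1, h]; ring

lemma fl_comm {i j : ℕ} (hi : i + 1 < m) (hj : j + 1 < m) (hij : i + 2 ≤ j) (s : Fin m → Fin 2) :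
    fl i (fl j s) = fl j (fl i s) := by
  apply Hh_ext
  intro k _
  by_cases h1 : k = i + 1
  · subst h1
    rw [Hh_fl _ hi, Hh_fl_ne s (i := j) (by omega), Hh_fl_ne s (i := j) (by omega),
      Hh_fl_ne s (i := j) (by omega), Hh_fl_ne (fl i s) (i := j) (by omega), Hh_fl _ hi]
  · rw [Hh_fl_ne (fl j s) h1]
    by_cases h2 : k = j + 1
    · subst h2
      rw [Hh_fl _ hj, Hh_fl _ hj, Hh_fl_ne s (i := i) (by omega), Hh_fl_ne s (i := i) (by omega),
        Hh_fl_ne s (i := i) (by omega)]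
    · rw [Hh_fl_ne s h2, Hh_fl_ne (fl i s) h2, Hh_fl_ne s h1]

open Classical in
/-- closed formula for the product of two commuting generators -/
lemma JJ_far_aux {i j : ℕ} (hi : i + 1 < m) (hj : j + 1 < m)
    (hij : i + 1 ≠ j ∧ i + 1 ≠ j + 1 ∧ i + 1 ≠ j + 2 ∧ j + 1 ≠ i ∧ j + 1 ≠ i + 2)
    (t : Fin m → Fin 2) {s : Fin m → Fin 2} (hs : Vd s) (h1 : Mx i s) (h2 : Mx j s) :
    (JJ m N i * JJ m N j) t s =
      ((if t = s ∨ t = fl i s then 1 else 0) + (if t = fl j s ∨ t = fl i (fl j s) then 1 else 0)) *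
        ((if Vd t then De N (Hh t (i+1)) * De N (Hh t (j+1)) else 0) /
          (De N (Hh s (i+2)) * De N (Hh s (j+2)))) := by
  obtain ⟨g1, g2, g3, g4, g5⟩ := hij
  rw [mul_JJ _ hj t hs h2]
  have a1 : JJ m N i t s * De N (Hh s (j+1)) = (if t = s ∨ t = fl i s then 1 else 0) *
      ((if Vd t then De N (Hh t (i+1)) * De N (Hh t (j+1)) else 0) / De N (Hh s (i+2))) := by
    by_cases hc : t = s ∨ t = fl i s
    · rw [if_pos hc, one_mul]
      by_cases hv : Vd t
      · rw [if_pos hv, JJ_of hi hv hs h1 hc]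
        have : Hh t (j+1) = Hh s (j+1) := by
          rcases hc with hc | hc
          · rw [hc]
          · rw [hc, Hh_fl_ne s (by omega)]
        rw [this]
        ring
      · rw [if_neg hv, JJ_not (fun h' => hv h'.1)]
        ring
    · rw [if_neg hc, JJ_not (fun h' => hc h'.2.2.2)]
      ring
  have h1' : Mx i (fl j s) := by
    unfold Mx at h1 ⊢
    rw [Hh_fl_ne s (by omega), Hh_fl_ne s (by omega)]
    exact h1
  have a2 : JJ m N i t (fl j s) * De N (Hh (fl j s) (j+1)) =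
      (if t = fl j s ∨ t = fl i (fl j s) then 1 else 0) *
      ((if Vd t then De N (Hh t (i+1)) * De N (Hh t (j+1)) else 0) / De N (Hh s (i+2))) := by
    by_cases hc : t = fl j s ∨ t = fl i (fl j s)
    · rw [if_pos hc, one_mul]
      have e : Hh t (j+1) = Hh (fl j s) (j+1) := by
        rcases hc with hc | hc
        · rw [hc]
        · rw [hc, Hh_fl_ne (fl j s) (by omega)]
      by_cases hv : Vd t
      · have hvj : Vd (fl j s) := Vd_fl hs (by rw [← e]; exact hv _)
        rw [if_pos hv, JJ_of hi hv hvj h1' hc, e, Hh_fl_ne s (by omega : i + 2 ≠ j + 1)]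
        ring
      · rw [if_neg hv, JJ_not (fun h' => hv h'.1)]
        ring
    · rw [if_neg hc, JJ_not (fun h' => hc h'.2.2.2)]
      ring
  rw [a1, a2, ← add_mul, mul_div_assoc, div_div]

theorem JJ_far {i j : ℕ} (hj : j + 1 < m) (hij : i + 2 ≤ j) :
    JJ m N i * JJ m N j = JJ m N j * JJ m N i := by
  classical
  have hi : i + 1 < m := by omega
  ext t s
  by_cases hs : Vd s
  · have k1 : ∀ r : Fin m → Fin 2, (r = s ∨ r = fl j s) → (Mx i r ↔ Mx i s) := by
      rintro r (rfl | rfl)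
      · rfl
      · unfold Mx
        rw [Hh_fl_ne s (by omega), Hh_fl_ne s (by omega)]
    have k2 : ∀ r : Fin m → Fin 2, (r = s ∨ r = fl i s) → (Mx j r ↔ Mx j s) := by
      rintro r (rfl | rfl)
      · rfl
      · unfold Mx
        rw [Hh_fl_ne s (by omega), Hh_fl_ne s (by omega)]
    by_cases h1 : Mx i s
    · by_cases h2 : Mx j s
      · rw [JJ_far_aux hi hj ⟨by omega, by omega, by omega, by omega, by omega⟩ t hs h1 h2,
          JJ_far_aux hj hi ⟨by omega, by omega, by omega, by omega, by omega⟩ t hs h2 h1, fl_comm hi hj hij s]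
        have h1' : Mx i (fl j s) := (k1 _ (Or.inr rfl)).2 h1
        have h2' : Mx j (fl i s) := (k2 _ (Or.inr rfl)).2 h2
        have n1 := fl_ne hi h1
        have n2 := fl_ne hj h2
        have n3 : fl i s ≠ fl j s := by
          intro h
          have e1 : Hh (fl i s) (i+1) = Hh (fl j s) (i+1) := by rw [h]
          rw [Hh_fl_ne s (i := j) (by omega)] at e1
          have := mid hi h1
          omega
        have n4 : fl j (fl i s) ≠ s := by
          intro h
          have e1 : Hh (fl j (fl i s)) (i+1) = Hh s (i+1) := by rw [h]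
          rw [Hh_fl_ne (fl i s) (i := j) (by omega)] at e1
          have := mid hi h1
          omega
        have n5 : fl j (fl i s) ≠ fl i s := fl_ne hj h2'
        have n6 : fl j (fl i s) ≠ fl j s := by
          rw [← fl_comm hi hj hij s]
          exact fl_ne hi h1'
        have e1 : ((if t = s ∨ t = fl i s then 1 else 0) +
            (if t = fl j s ∨ t = fl j (fl i s) then 1 else 0) : ℂ) =
            (if t = s ∨ t = fl j s then 1 else 0) + (if t = fl i s ∨ t = fl j (fl i s) then 1 else 0) := by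
          by_cases p1 : t = s
          · have q2 : ¬ t = fl i s := fun h => n1 (h.symm.trans p1)
            have q3 : ¬ t = fl j s := fun h => n2 (h.symm.trans p1)
            have q4 : ¬ t = fl j (fl i s) := fun h => n4 (h.symm.trans p1)
            simp only [p1, true_or, if_true]
            rw [p1] at q2 q3 q4
            simp only [q2, q3, q4, or_self, if_false]
          · by_cases p2 : t = fl i s
            · have q3 : ¬ t = fl j s := fun h => n3 (p2.symm.trans h)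
              have q4 : ¬ t = fl j (fl i s) := fun h => n5 (h.symm.trans p2)
              rw [if_pos (Or.inr p2), if_neg (by tauto), if_neg (by tauto), if_pos (Or.inl p2)]
              ring
            · by_cases p3 : t = fl j s
              · have q4 : ¬ t = fl j (fl i s) := fun h => n6 (h.symm.trans p3)
                rw [if_neg (by tauto), if_pos (Or.inl p3), if_pos (Or.inr p3), if_neg (by tauto)]
                ring
              · by_cases p4 : t = fl j (fl i s)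
                · rw [if_neg (by tauto), if_pos (Or.inr p4), if_neg (by tauto), if_pos (Or.inr p4)]
                · rw [if_neg (by tauto), if_neg (by tauto), if_neg (by tauto), if_neg (by tauto)]
        rw [e1, mul_comm (De N (Hh t (i+1))), mul_comm (De N (Hh s (i+2)))]
      · rw [mul_JJ_not _ t (fun h' => h2 h'.2), mul_JJ _ hi t hs h1,
          JJ_not (fun h' => h2 h'.2.2.1), JJ_not (fun h' => h2 ((k2 _ (Or.inr rfl)).1 h'.2.2.1))]
        ring
    · rw [mul_JJ_not (i := i) _ t (fun h' => h1 h'.2)]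
      by_cases h2 : Mx j s
      · rw [mul_JJ _ hj t hs h2,
          JJ_not (fun h' => h1 h'.2.2.1), JJ_not (fun h' => h1 ((k1 _ (Or.inr rfl)).1 h'.2.2.1))]
        ring
      · rw [mul_JJ_not _ t (fun h' => h2 h'.2)]
  · rw [mul_JJ_not _ t (fun h' => hs h'.1), mul_JJ_not _ t (fun h' => hs h'.1)]

/-- TCA/TL -/
theorem isTL_JJ (m N : ℕ) (hN : 3 ≤ N) : IsTL m (N : ℂ) (JJ m N) where
  sq := fun _ hi => JJ_sq hN hi
  up := fun _ hi => JJ_up hN hi
  down := fun _ hi => JJ_down hN hi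
  far := fun _ _ hj hij => JJ_far hj hij

end Pool.Agent.N42.TC
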